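import Pool.Agent.H938.BT.RedGen

/-!
# The Betti numbers of the canonical module: rings of type two, and a condition for all types

The question of Jorgensen and Leuschke: let `R` be a Cohen-Macaulay local ring with canonical module
`ω` and `β₁(ω) ≤ β₀(ω)`. Is `R` Gorenstein? The number `r = β₀(ω)` is the type of `R`, and `R` is
Gorenstein if and only if `r = 1`. So the question is whether `β₁(ω) ≤ β₀(ω) = r` is impossible for
all `r ≥ 2`.

Let `I` be generated by a system of parameters of `R`. It is known that then `R / I` is an Artinian
local ring and that `ω / I ω` is the injective hull of its residue field. The theorem needs only one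
such ideal `I` of the local ring `R`, and no other property of `R` and `ω`.

**The theorem.** Let `β₁(ω) ≤ β₀(ω) = r = n + 1` with `r ≥ 2`, that is, `ω` has a minimal
presentation by a square matrix `A` of size `r` (with entries in the maximal ideal). Then

* `r ≥ 3`: the answer to the question is yes for the rings of type two, of any dimension;
* for each of the `r` generators `w` of `ω`, the module `C = ω / (I ω + R w)` over the Artinian ring
  `R / I` satisfies `length (End C) < length ((R / I) / Fitt₀ (C))`.

Here `Fitt₀ (C)` is the ideal generated by the maximal minors of the matrix `A` modulo `I` without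
the row of `w`, which is a presentation matrix of `C`. Since `R / Ann(C)` is contained in `End C`, the
second part implies that `Ann(C)` is different from `Fitt₀ (C)`, for all minimal generators `w` of
`ω`. If `r = 2` then `C` is cyclic, so that `Ann (C) = Fitt₀ (C)`: this is the first part.

**The proof.** Let first `R` be an Artinian local ring, `A` a square matrix of size `r ≥ 2` over the
maximal ideal with `det A = 0`, `M` its cokernel, with the generators `w_i`, and `C = M / R w_0`. Then

`length (J) + length (End C) + 1 ≤ length (End M)`  (`length_generalN` in `BT/Gen.lean`),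

where `J` is the ideal generated by the maximal minors of `A` without the row `0`. The endomorphisms
of `M` are the kernel of `Aᵀ` on `M^r`, which has the length of `Q = M^r / Aᵀ M^r`; this maps onto
`Q' = C^r / Aᵀ C^r`. Since `det A = 0` the adjoint matrix defines a map from `Q` to `R`, and the
image of the kernel of `Q → Q'` contains `J`. Finally `Q'` has the length of the kernel of `Aᵀ` on
`C^r`, that is of `Hom (M, C)`, and `End C` is a proper submodule of `Hom (M, C)`: the homomorphisms
which map `w_0` to a nonzero element of the socle of `C` and the other generators to zero are not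
in it. For a canonical module `M = ω` over the Artinian ring `R` the module `End ω` has the length of
`R`, and `det A = 0` since `ω` is faithful. So `length (End C) + 1 ≤ length (R) - length (J)`.
-/

namespace Pool.Agent.Results.MP_e3346b_ag.TypeTwo

open Pool.Agent.H938.BT

universe u

/-- `E` is the injective hull of the residue field of the Artinian local ring `S`: it is injective
and the module of the homomorphisms from the residue field to `E` has length one. -/
def IsInjectiveHull (S E : Type u) [CommRing S] [IsLocalRing S] [AddCommGroup E] [Module S E] :
    Prop :=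
  Module.Injective S E ∧ Module.length S (IsLocalRing.ResidueField S →ₗ[S] E) = 1

/-- The reduction `C / I C` of a module modulo an ideal. -/
abbrev Red {R : Type u} [CommRing R] (I : Ideal R) (C : Type u) [AddCommGroup C] [Module R C] :
    Type u :=
  C ⧸ (I • ⊤ : Submodule R C)

/-- `f` maps `R^(n+1)` onto `ω`, its kernel has entries in the maximal ideal, and it is the image of
the endomorphism `g` of `R^(n+1)`. Such a `g` exists if and only if `β₀(ω) = n + 1` and
`β₁(ω) ≤ n + 1`. -/
structure SquarePresentation {R ω : Type u} [CommRing R] [IsLocalRing R] [AddCommGroup ω]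
    [Module R ω] {n : ℕ} (f : (Fin (n + 1) → R) →ₗ[R] ω)
    (g : (Fin (n + 1) → R) →ₗ[R] (Fin (n + 1) → R)) : Prop where
  surjective : Function.Surjective f
  minimal : ∀ v, f v = 0 → ∀ i, v i ∈ IsLocalRing.maximalIdeal R
  relations : LinearMap.range g = LinearMap.ker f

/-- The module `ω / (I ω + R w)`, where `w` is the image of the basis vector `i` under `f`. -/
abbrev QuotGen {R ω : Type u} [CommRing R] [AddCommGroup ω] [Module R ω] (I : Ideal R) {n : ℕ}
    (f : (Fin (n + 1) → R) →ₗ[R] ω) (i : Fin (n + 1)) : Type u :=
  Red I ω ⧸ Submodule.span (R ⧸ I) {(I • ⊤ : Submodule R ω).mkQ (f (Pi.single i 1))}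

/-- The ideal of `R / I` generated by the minors of size `n` of the matrix of `g` modulo `I` without
the row `i`. Up to the sign, these minors are the entries of the column `i` of the adjoint matrix.
This is the zeroth Fitting ideal of `QuotGen I f i`. -/
def fittingIdeal {R : Type u} [CommRing R] (I : Ideal R) {n : ℕ}
    (g : (Fin (n + 1) → R) →ₗ[R] (Fin (n + 1) → R)) (i : Fin (n + 1)) : Ideal (R ⧸ I) :=
  Ideal.span (Set.range fun j =>
    ((LinearMap.toMatrix' g).map (Ideal.Quotient.mk I)).adjugate j i)

/-- The length of the module of the endomorphisms. -/
noncomputable def endLength (S C : Type u) [CommRing S] [AddCommGroup C] [Module S C] : ℕ∞ :=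
  Module.length S (C →ₗ[S] C)

/-- **Canonical modules with a square presentation.** -/
theorem result (R ω : Type u) [CommRing R] [IsLocalRing R] [AddCommGroup ω] [Module R ω]
    (I : Ideal R) [IsLocalRing (R ⧸ I)] [IsArtinianRing (R ⧸ I)]
    (hE : IsInjectiveHull (R ⧸ I) (Red I ω)) (n : ℕ) (hn : 1 ≤ n)
    (f : (Fin (n + 1) → R) →ₗ[R] ω) (g : (Fin (n + 1) → R) →ₗ[R] (Fin (n + 1) → R))
    (h : SquarePresentation f g) :
    2 ≤ n ∧ ∀ i : Fin (n + 1), endLength (R ⧸ I) (QuotGen I f i) <
      Module.length (R ⧸ I) ((R ⧸ I) ⧸ fittingIdeal I g i) :=
  canonicalN I hE.1 hE.2 hn h.surjective h.minimal g h.relations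

end Pool.Agent.Results.MP_e3346b_ag.TypeTwo
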